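import Pool.Agent.Q52.Tw.Sieve

/-!
# The number of integers that no prime of a given set divides exactly once
-/

set_option autoImplicit false

namespace Pool.Agent.Q52.Tw

open Finset ArithmeticFunction

variable (V : Set ℕ)

/-- removing a power of `p` can only create an exact divisor `p` -/
theorem noExact_div {n p j : ℕ} (hn : n ≠ 0) (hp : p.Prime) (hj : p ^ j ∣ n) (h : NoExact V n) :
    NoExact V (n / p ^ j) ∨ (n.factorization p = j + 1) := by
  by_cases h1 : n.factorization p = j + 1
  · exact Or.inr h1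
  · left
    intro q hq hqV h2
    rw [Nat.factorization_div hj, Finsupp.tsub_apply, hp.factorization_pow,
      Finsupp.single_apply] at h2
    split_ifs at h2 with h3
    · subst h3
      have h4 : j ≤ n.factorization p := (hp.pow_dvd_iff_le_factorization hn).1 hj
      omega
    · rw [Nat.sub_zero] at h2
      exact h q hq hqV h2

/-- removing the full power of `p` -/
theorem noExact_div_full {n p : ℕ} (hn : n ≠ 0) (hp : p.Prime) (h : NoExact V n) :
    NoExact V (n / p ^ (n.factorization p)) := by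
  rcases noExact_div V hn hp (Nat.ordProj_dvd n p) h with h1 | h1
  · exact h1
  · omega

/-- the basic inequality -/
theorem wt_log (n : ℕ) (hn : n ≠ 0) :
    wt V n * Real.log n ≤ 2 * ∑ d ∈ n.divisors, wt V (n / d) * Λ d := by
  classical
  have hnn : 0 ≤ ∑ d ∈ n.divisors, wt V (n / d) * Λ d :=
    sum_nonneg fun d _ => mul_nonneg (wt_nonneg V _) vonMangoldt_nonneg
  by_cases h : NoExact V n
  swap
  · unfold wt at hnn ⊢
    rw [if_neg h, zero_mul]
    linarith
  have e1 : wt V n = 1 := by
    unfold wt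
    rw [if_pos h]
  rw [e1, one_mul, ← vonMangoldt_sum]
  set Bd := n.divisors.filter fun d => ¬ NoExact V (n / d) ∧ IsPrimePow d with hBd
  set Gd := n.divisors.filter fun d => NoExact V (n / d) with hGd
  have hgood : ∑ d ∈ n.divisors, wt V (n / d) * Λ d = ∑ d ∈ Gd, Λ d := by
    rw [hGd, sum_filter]
    refine sum_congr rfl fun d _ => ?_
    unfold wt
    split_ifs <;> simp
  have hsplit : ∑ d ∈ n.divisors, Λ d ≤ ∑ d ∈ Gd, Λ d + ∑ d ∈ Bd, Λ d := by
    have h1 : ∑ d ∈ n.divisors, Λ d = ∑ d ∈ Gd, Λ d +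
        ∑ d ∈ n.divisors.filter (fun d => ¬ NoExact V (n / d)), Λ d := by
      rw [hGd, sum_filter_add_sum_filter_not]
    rw [h1]
    have h2 : ∑ d ∈ n.divisors.filter (fun d => ¬ NoExact V (n / d)), Λ d = ∑ d ∈ Bd, Λ d := by
      rw [hBd, ← filter_filter]
      symm
      apply sum_filter_of_ne
      intro d _ hd
      by_contra hcon
      exact hd (vonMangoldt_eq_zero_iff.2 hcon)
    rw [h2]
  -- the structure of the bad divisors
  have hbad : ∀ d ∈ Bd, ∃ p, p.Prime ∧ ∃ j, j ≠ 0 ∧ d = p ^ j ∧ n.factorization p = j + 1 := by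
    intro d hd
    rw [hBd, mem_filter, Nat.mem_divisors] at hd
    obtain ⟨⟨hdn, _⟩, hnd, hpp⟩ := hd
    obtain ⟨p, j, hp, hj, rfl⟩ := hpp
    have hp' : p.Prime := Nat.prime_iff.2 hp
    rcases noExact_div V hn hp' hdn h with h1 | h1
    · exact absurd h1 hnd
    · exact ⟨p, hp', j, hj.ne', rfl, h1⟩
  have hle : ∑ d ∈ Bd, Λ d ≤ ∑ d ∈ Gd, Λ d := by
    have h1 : ∑ d ∈ Bd, Λ d = ∑ d ∈ Bd, Λ (d * d.minFac) := by
      refine sum_congr rfl fun d hd => ?_
      obtain ⟨p, hp, j, hj, rfl, _⟩ := hbad d hd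
      rw [hp.pow_minFac hj, ← pow_succ, vonMangoldt_apply_pow hj,
        vonMangoldt_apply_pow (Nat.succ_ne_zero j)]
    have hinj : Set.InjOn (fun d : ℕ => d * d.minFac) (Bd : Set ℕ) := by
      intro d hd d' hd' hdd
      obtain ⟨p, hp, j, hj, rfl, hf⟩ := hbad d hd
      obtain ⟨p', hp', j', hj', rfl, hf'⟩ := hbad d' hd'
      change p ^ j * (p ^ j).minFac = p' ^ j' * (p' ^ j').minFac at hdd
      rw [hp.pow_minFac hj, hp'.pow_minFac hj', ← pow_succ, ← pow_succ] at hdd
      have h2 : p = p' := by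
        have h3 := hp.pow_minFac (Nat.succ_ne_zero j)
        rw [hdd, hp'.pow_minFac (Nat.succ_ne_zero j')] at h3
        exact h3.symm
      subst h2
      rw [hf] at hf'
      have h4 : j = j' := by omega
      rw [h4]
    rw [h1, ← sum_image (f := fun d => Λ d) hinj]
    refine sum_le_sum_of_subset_of_nonneg ?_ fun d _ _ => vonMangoldt_nonneg
    intro d' hd'
    rw [mem_image] at hd'
    obtain ⟨d, hd, rfl⟩ := hd'
    obtain ⟨p, hp, j, hj, rfl, hf⟩ := hbad d hd
    rw [hp.pow_minFac hj, ← pow_succ, hGd, mem_filter, Nat.mem_divisors, ← hf]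
    exact ⟨⟨Nat.ordProj_dvd n p, hn⟩, noExact_div_full V hn hp h⟩
  rw [hgood]
  linarith

/-- the inequality of Hall and Tenenbaum -/
theorem hall (x : ℕ) :
    ∑ n ∈ Ioc 0 x, wt V n * Real.log n ≤
      2 * (Real.log 4 + 4) * x * ∑ m ∈ Ioc 0 x, wt V m / (m : ℝ) := by
  let G : ArithmeticFunction ℝ := ⟨fun m => if m = 0 then 0 else wt V m, by simp⟩
  have hG : ∀ m, m ≠ 0 → G m = wt V m := fun m hm => by
    change (if m = 0 then 0 else wt V m) = _
    rw [if_neg hm]
  have h1 := ArithmeticFunction.sum_Ioc_mul_eq_sum_sum G ArithmeticFunction.vonMangoldt x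
  have h2 : ∀ n ∈ Ioc 0 x, wt V n * Real.log n ≤ 2 * (G * ArithmeticFunction.vonMangoldt) n := by
    intro n hn
    rw [mem_Ioc] at hn
    refine (wt_log V n (by omega)).trans (le_of_eq ?_)
    congr 1
    rw [ArithmeticFunction.mul_apply,
      Nat.sum_divisorsAntidiagonal' (fun a b => G a * ArithmeticFunction.vonMangoldt b)]
    refine sum_congr rfl (fun d hd => ?_)
    rw [Nat.mem_divisors] at hd
    obtain ⟨⟨m, hm⟩, hn0⟩ := hd
    have hd0 : 0 < d := Nat.pos_of_ne_zero (by rintro rfl; simp at hm; exact hn0 hm)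
    have hmn : n / d = m := by rw [hm]; exact Nat.mul_div_cancel_left m hd0
    rw [hmn]
    have hm0 : m ≠ 0 := by rintro rfl; simp at hm; exact hn0 hm
    rw [hG m hm0]
  refine (sum_le_sum h2).trans ?_
  rw [← mul_sum, h1, mul_sum, mul_sum]
  refine sum_le_sum (fun m hm => ?_)
  rw [mem_Ioc] at hm
  rw [hG m (by omega)]
  have h3 : ∑ k ∈ Ioc 0 (x / m), ArithmeticFunction.vonMangoldt k =
      Chebyshev.psi ((x / m : ℕ) : ℝ) := by
    rw [Chebyshev.psi, Nat.floor_natCast]
  rw [h3]
  have h4 := Chebyshev.psi_le_const_mul_self (x := ((x / m : ℕ) : ℝ)) (Nat.cast_nonneg _)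
  have h5 : ((x / m : ℕ) : ℝ) ≤ (x : ℝ) / m := Nat.cast_div_le
  have hc : 0 ≤ Real.log 4 + 4 := by
    have : 0 ≤ Real.log 4 := Real.log_nonneg (by norm_num)
    linarith
  calc 2 * (wt V m * Chebyshev.psi ((x / m : ℕ) : ℝ))
      ≤ 2 * (wt V m * ((Real.log 4 + 4) * ((x : ℝ) / m))) := by
        refine mul_le_mul_of_nonneg_left ?_ (by norm_num)
        refine mul_le_mul_of_nonneg_left (h4.trans ?_) (wt_nonneg V m)
        exact mul_le_mul_of_nonneg_left h5 hc
    _ = 2 * (Real.log 4 + 4) * x * (wt V m / m) := by ring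

open Classical in
/-- **the sieve bound** -/
theorem count : ∃ C : ℝ, 0 ≤ C ∧ ∀ (V : Set ℕ) (x : ℕ), 2 ≤ x →
    (((Icc 1 x).filter (fun n => NoExact V n)).card : ℝ) ≤ C * x * Real.exp (-recSum V x) := by
  obtain ⟨C, hC0, hC⟩ := wt_sum
  set c1 : ℝ := 2 * (Real.log 4 + 4) with hc1
  have hc1' : 0 ≤ c1 := by
    have : 0 ≤ Real.log 4 := Real.log_nonneg (by norm_num)
    rw [hc1]
    linarith
  refine ⟨2 * Real.exp C + 2 * c1 * Real.exp C, by positivity, fun V x hx => ?_⟩
  have hx0 : (0 : ℝ) < x := by exact_mod_cast (by omega : 0 < x)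
  have hx1 : (1 : ℝ) < x := by exact_mod_cast (by omega : 1 < x)
  have hlx : 0 < Real.log x := Real.log_pos hx1
  obtain ⟨h1, h2⟩ := hC V x hx
  have h3 := hall V x
  have hIcc : Icc 1 x = Ioc 0 x := rfl
  rw [hIcc] at h1
  set S := (Icc 1 x).filter (fun n => NoExact V n) with hS
  set E := Real.exp (-recSum V x) with hE
  have hE0 : 0 < E := Real.exp_pos _
  have h4 : Real.exp (Real.log (Real.log x) + C - recSum V x) = Real.exp C * Real.log x * E := by
    rw [sub_eq_add_neg, Real.exp_add, Real.exp_add, Real.exp_log hlx]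
    ring
  rw [h4] at h1
  -- the lower bound of `E`
  have hElow : 1 ≤ Real.exp C * Real.log x * E := by
    rw [← h4]
    apply Real.one_le_exp
    linarith
  have hsplit : (S.card : ℝ) ≤ ((Icc 1 x).filter (fun n => n * n ≤ x)).card +
      (S.filter (fun n => x < n * n)).card := by
    have : S ⊆ ((Icc 1 x).filter (fun n => n * n ≤ x)) ∪ (S.filter (fun n => x < n * n)) := by
      intro n hn
      rw [mem_union, mem_filter, mem_filter]
      rcases Nat.lt_or_ge x (n * n) with h | h
      · exact Or.inr ⟨hn, h⟩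
      · exact Or.inl ⟨(mem_filter.1 hn).1, h⟩
    exact_mod_cast (card_le_card this).trans (card_union_le _ _)
  -- the small integers
  have hsmall : (((Icc 1 x).filter (fun n => n * n ≤ x)).card : ℝ) ≤ Real.sqrt x := by
    have h5 : ((Icc 1 x).filter (fun n => n * n ≤ x)).card ≤ Nat.sqrt x := by
      have h6 : (Icc 1 x).filter (fun n => n * n ≤ x) ⊆ Icc 1 (Nat.sqrt x) := by
        intro n hn
        rw [mem_filter, mem_Icc] at hn
        rw [mem_Icc]
        exact ⟨hn.1.1, Nat.le_sqrt.2 hn.2⟩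
      have h7 := card_le_card h6
      rwa [Nat.card_Icc, Nat.add_sub_cancel] at h7
    exact (Nat.cast_le.2 h5).trans Real.nat_sqrt_le_real_sqrt
  have hsqrt : Real.sqrt x ≤ 2 * Real.exp C * x * E := by
    have h5 : Real.log x ≤ 2 * Real.sqrt x := by
      have h6 : Real.log x = 2 * Real.log (Real.sqrt x) := by
        rw [Real.log_sqrt hx0.le]
        ring
      have h7 := Real.log_le_sub_one_of_pos (Real.sqrt_pos.2 hx0)
      rw [h6]
      linarith
    have h8 : Real.sqrt x * Real.sqrt x = x := Real.mul_self_sqrt hx0.le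
    have h9 : 0 ≤ Real.sqrt x := Real.sqrt_nonneg x
    have hEC : 0 < Real.exp C * E := mul_pos (Real.exp_pos _) hE0
    calc Real.sqrt x = Real.sqrt x * 1 := (mul_one _).symm
      _ ≤ Real.sqrt x * (Real.exp C * Real.log x * E) := mul_le_mul_of_nonneg_left hElow h9
      _ = Real.sqrt x * Real.log x * (Real.exp C * E) := by ring
      _ ≤ Real.sqrt x * (2 * Real.sqrt x) * (Real.exp C * E) := by gcongr
      _ = 2 * (Real.sqrt x * Real.sqrt x) * (Real.exp C * E) := by ring
      _ = 2 * Real.exp C * x * E := by rw [h8]; ring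
  -- the large integers
  have hlarge : ((S.filter (fun n => x < n * n)).card : ℝ) ≤ 2 * c1 * Real.exp C * x * E := by
    have h5 : ((S.filter (fun n => x < n * n)).card : ℝ) * (Real.log x / 2) ≤
        ∑ n ∈ Ioc 0 x, wt V n * Real.log n := by
      calc ((S.filter (fun n => x < n * n)).card : ℝ) * (Real.log x / 2)
          = ∑ n ∈ S.filter (fun n => x < n * n), Real.log x / 2 := by
            rw [sum_const, nsmul_eq_mul]
        _ ≤ ∑ n ∈ S.filter (fun n => x < n * n), wt V n * Real.log n := by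
            refine sum_le_sum fun n hn => ?_
            rw [mem_filter, hS, mem_filter, mem_Icc] at hn
            obtain ⟨⟨⟨hn1, hn2⟩, hn3⟩, hn4⟩ := hn
            have h6 : wt V n = 1 := by
              unfold wt
              rw [if_pos hn3]
            rw [h6, one_mul]
            have h7 : Real.log x ≤ Real.log ((n : ℝ) * n) :=
              Real.log_le_log hx0 (by exact_mod_cast hn4.le)
            have h8 : (n : ℝ) ≠ 0 := by
              have : (0 : ℝ) < n := by exact_mod_cast hn1
              exact this.ne'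
            rw [Real.log_mul h8 h8] at h7
            linarith
        _ ≤ ∑ n ∈ Ioc 0 x, wt V n * Real.log n := by
            refine sum_le_sum_of_subset_of_nonneg ?_ ?_
            · intro n hn
              rw [mem_filter, hS, mem_filter] at hn
              exact hn.1.1
            · intro n hn _
              rw [mem_Ioc] at hn
              exact mul_nonneg (wt_nonneg V n) (Real.log_natCast_nonneg n)
    have h6 : ∑ n ∈ Ioc 0 x, wt V n * Real.log n ≤ c1 * x * (Real.exp C * Real.log x * E) :=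
      h3.trans (mul_le_mul_of_nonneg_left h1 (by positivity))
    have h7 := h5.trans h6
    have h8 : c1 * x * (Real.exp C * Real.log x * E) =
        (2 * c1 * Real.exp C * x * E) * (Real.log x / 2) := by ring
    rw [h8] at h7
    exact le_of_mul_le_mul_right h7 (by positivity)
  calc (S.card : ℝ) ≤ _ := hsplit
    _ ≤ 2 * Real.exp C * x * E + 2 * c1 * Real.exp C * x * E :=
        add_le_add (hsmall.trans hsqrt) hlarge
    _ = _ := by ring

end Pool.Agent.Q52.Tw
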