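import Pool.Agent.Q52.Tw.Loc
import Pool.Agent.Q52.SecY.PlaceL

/-! # Points of a twist over a number field give fixed points modulo primes -/

set_option autoImplicit false

namespace Pool.Agent.Q52.Tw

open NumberField Pool.Agent.Q52.SecY Pool.Agent.Q52.SecV

/-- a point on the twist by `d` over a number field of degree prime to `ℓ` gives a fixed point over a
field with `p ^ f` elements, `f` prime to `ℓ`, for every prime `p` dividing `d` exactly once -/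
theorem global_red (L : Type) [Field L] [NumberField L] (p : ℕ) (hp : p.Prime) (ℓ : ℕ)
    (hℓ : ℓ.Prime) (hl : ¬ ℓ ∣ Module.finrank ℚ L) (d : ℤ) (hd : (p : ℤ) ∣ d)
    (hd' : ¬ (p : ℤ) ^ 2 ∣ d) (k : ℕ) {n : ℕ} (w : Fin n → ℕ) {J : Type}
    (F : J → MvPolynomial (Fin n) ℤ) (D : J → ℕ) (hF : ∀ j, (F j).IsHomogeneous (D j))
    {Ω : Type} [Field Ω] [Algebra L Ω] (x : Fin n → L) (hx : x ≠ 0) (δ : Ω)
    (hδ : δ ^ (ℓ ^ k) = (d : Ω))
    (h : ∀ j, MvPolynomial.eval₂ (Int.castRingHom Ω)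
      (fun i => δ ^ (w i) * algebraMap L Ω (x i)) (F j) = 0) :
    ∃ (κ : Type) (_ : Field κ) (f : ℕ), Nat.card κ = p ^ f ∧ ¬ ℓ ∣ f ∧ ∃ z : Fin n → κ, z ≠ 0 ∧
      (∀ i i', z i ≠ 0 → z i' ≠ 0 → w i ≡ w i' [MOD ℓ ^ k]) ∧
      ∀ j, MvPolynomial.eval₂ (Int.castRingHom κ) z (F j) = 0 := by
  classical
  have hp0 : (p : ℤ) ≠ 0 := by exact_mod_cast hp.ne_zero
  have hpp : Prime (p : ℤ) := Nat.prime_iff_prime_int.1 hp
  set I : Ideal ℤ := Ideal.span {(p : ℤ)} with hI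
  have hI0 : I ≠ ⊥ := by
    rw [hI, Ne, Ideal.span_singleton_eq_bot]
    exact hp0
  have hIp : I.IsPrime := (Ideal.span_singleton_prime hp0).2 hpp
  have hIm : I.IsMaximal := hIp.isMaximal hI0
  have htf : Module.IsTorsionFree ℤ (𝓞 L) := inferInstance
  obtain ⟨P, hP1, hP2, he, hf⟩ := exists_prime_l ℤ I hI0 (𝓞 L) ℚ L ℓ hℓ hl
  have hP0 : P ≠ ⊥ := by
    rintro rfl
    have h1 := hP2.over
    apply hI0
    rw [h1, Ideal.under_bot]
  have hPm : P.IsMaximal := Ideal.IsPrime.isMaximal inferInstance hP0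
  obtain ⟨B, hB, i, ρ, hρ, hi, hρi, hui, hPi⟩ := exists_local (𝓞 L) L P hP0
  obtain ⟨π, hπ⟩ := IsDiscreteValuationRing.exists_irreducible B
  have hinj : Function.Injective (algebraMap ℤ (𝓞 L)) := by
    intro a b hab
    have h1 : ((a : ℤ) : 𝓞 L) = ((b : ℤ) : 𝓞 L) := hab
    exact_mod_cast h1
  obtain ⟨u, hu⟩ := unif_pow ℤ I (p : ℤ) hI hp0 (𝓞 L) hinj P B i hui hPi π hπ
  set e := Ideal.ramificationIdx' I P with he'
  -- the residue field
  let fld : Field (𝓞 L ⧸ P) := Ideal.Quotient.field P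
  let fldI : Field (ℤ ⧸ I) := Ideal.Quotient.field I
  have hfinI : Finite (ℤ ⧸ I) := Ideal.finiteQuotientOfFreeOfNeBot _ hI0
  have hfinP : Finite (𝓞 L ⧸ P) := Ideal.finiteQuotientOfFreeOfNeBot _ hP0
  have hmf : Module.Finite (ℤ ⧸ I) (𝓞 L ⧸ P) := Module.Finite.of_finite
  have hcard : Nat.card (𝓞 L ⧸ P) = p ^ (Ideal.inertiaDeg' I P) := by
    rw [Module.natCard_eq_pow_finrank (K := ℤ ⧸ I), Ideal.inertiaDeg'_algebraMap,
      Nat.card_congr (Int.quotientSpanNatEquivZMod p).toEquiv, Nat.card_zmod]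
  refine ⟨𝓞 L ⧸ P, fld, Ideal.inertiaDeg' I P, hcard, hf, ?_⟩
  -- the order of `d`
  obtain ⟨c, hc⟩ := hd
  have hcI : c ∉ I := by
    intro h1
    obtain ⟨c', hc'⟩ := Ideal.mem_span_singleton.1 h1
    apply hd'
    exact ⟨c', by rw [hc, hc']; ring⟩
  have hcP : algebraMap ℤ (𝓞 L) c ∉ P := by
    intro h1
    apply hcI
    rw [hP2.over]
    exact h1
  obtain ⟨uc, huc⟩ := hui _ hcP
  have hdB : i (algebraMap ℤ (𝓞 L) d) = (u * uc : Bˣ) * π ^ e := by
    rw [hc, map_mul, map_mul, hu, ← huc]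
    push_cast
    ring
  have hord : OrdIs π ((d : ℤ) : L) (e : ℤ) := by
    refine ⟨u * uc, ?_⟩
    have h1 : ((d : ℤ) : L) = ((i (algebraMap ℤ (𝓞 L) d) : B) : L) := by
      rw [hi]
      simp
    rw [h1, hdB, zpow_natCast]
    rfl
  have hcop : IsCoprime ((ℓ ^ k : ℕ) : ℤ) (e : ℤ) := by
    rw [Nat.isCoprime_iff_coprime]
    exact Nat.Coprime.pow_left k ((Nat.Prime.coprime_iff_not_dvd hℓ).2 he)
  let algB : Algebra B Ω := ((algebraMap L Ω).comp (algebraMap B L)).toAlgebra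
  have htow : IsScalarTower B L Ω := IsScalarTower.of_algebraMap_eq fun _ => rfl
  have key := fixed_point (A := B) (E := L) π hπ (ℓ ^ k) (pow_pos hℓ.pos k) ρ (by
      intro a ha
      have hmax : (RingHom.ker ρ).IsMaximal := RingHom.ker_isMaximal_of_surjective ρ hρ
      rw [← IsLocalRing.eq_maximalIdeal hmax] at ha
      exact ha) δ ((d : ℤ) : L) (by rw [hδ, map_intCast]) (e : ℤ) hord hcop w x hx
    (Int.castRingHom B) F D hF (by
      intro j
      have h1 : (algebraMap B Ω).comp (Int.castRingHom B) = Int.castRingHom Ω :=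
        RingHom.ext_int _ _
      rw [h1]
      exact h j)
  obtain ⟨z, hz0, hz1, hz2⟩ := key
  refine ⟨z, hz0, hz1, fun j => ?_⟩
  have h1 : ρ.comp (Int.castRingHom B) = Int.castRingHom (𝓞 L ⧸ P) := RingHom.ext_int _ _
  have h2 := hz2 j
  rw [h1] at h2
  exact h2

end Pool.Agent.Q52.Tw
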