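import Pool.Agent.Q52.SecY.Ord

/-! # Reduction of points on twists to the fixed locus -/

set_option autoImplicit false

namespace Pool.Agent.Q52.Tw

open Pool.Agent.Q52.SecY

lemma eval₂_smul {R S : Type*} [CommSemiring R] [CommSemiring S] {n D : ℕ}
    {F : MvPolynomial (Fin n) R} (hF : F.IsHomogeneous D) (φ : R →+* S) (c : S) (y : Fin n → S) :
    MvPolynomial.eval₂ φ (fun i => c * y i) F = c ^ D * MvPolynomial.eval₂ φ y F := by
  rw [MvPolynomial.eval₂_eq, MvPolynomial.eval₂_eq, Finset.mul_sum]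
  refine Finset.sum_congr rfl fun m hm => ?_
  have h1 : ∑ i ∈ m.support, m i = D := by
    have h2 := hF (MvPolynomial.mem_support_iff.1 hm)
    rw [Finsupp.weight_apply] at h2
    simpa [Finsupp.sum] using h2
  have h3 : ∏ i ∈ m.support, (c * y i) ^ m i = c ^ D * ∏ i ∈ m.support, y i ^ m i := by
    rw [← h1, ← Finset.prod_pow_eq_pow_sum, ← Finset.prod_mul_distrib]
    exact Finset.prod_congr rfl fun i _ => mul_pow _ _ _
  rw [h3]
  ring

lemma eval₂_congr_mod {R B : Type*} [CommRing R] [CommRing B] {n : ℕ} (I : Ideal B)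
    (F : MvPolynomial (Fin n) R) (φ : R →+* B) (a b : Fin n → B) (hab : ∀ i, a i - b i ∈ I) :
    MvPolynomial.eval₂ φ a F - MvPolynomial.eval₂ φ b F ∈ I := by
  rw [← Ideal.Quotient.eq_zero_iff_mem, map_sub, sub_eq_zero]
  rw [MvPolynomial.hom_eval₂, MvPolynomial.hom_eval₂]
  congr 1
  funext i
  exact (Ideal.Quotient.mk_eq_mk_iff_sub_mem _ _).2 (hab i)

section

variable {A E : Type*} [CommRing A] [IsDomain A] [IsDiscreteValuationRing A] [Field E]
  [Algebra A E] [IsFractionRing A E]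

lemma mem_of_ord {ϖ : A} (hϖ : Irreducible ϖ) {z : E} {j : ℤ} (hz : OrdIs ϖ z j) (hj : 0 ≤ j) :
    ∃ a : A, algebraMap A E a = z ∧ (0 < j → a ∈ IsLocalRing.maximalIdeal A) := by
  obtain ⟨u, hu⟩ := hz
  obtain ⟨k, rfl⟩ := Int.eq_ofNat_of_zero_le hj
  refine ⟨u * ϖ ^ k, ?_, ?_⟩
  · rw [hu, map_mul, map_pow]
    norm_cast
  · intro hk
    have hk' : k ≠ 0 := by
      rintro rfl
      simp at hk
    apply Ideal.mul_mem_left
    apply Ideal.pow_mem_of_mem _ _ _ (Nat.pos_of_ne_zero hk')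
    exact (IsLocalRing.mem_maximalIdeal _).2 hϖ.not_isUnit

omit [IsDomain A] [IsDiscreteValuationRing A] [IsFractionRing A E] in
lemma OrdIs.inv {ϖ : A} {z : E} {i : ℤ} (hz : OrdIs ϖ z i) : OrdIs ϖ z⁻¹ (-i) := by
  obtain ⟨u, rfl⟩ := hz
  refine ⟨u⁻¹, ?_⟩
  have h1 : algebraMap A E u * algebraMap A E ((u⁻¹ : Aˣ) : A) = 1 := by
    rw [← map_mul, Units.mul_inv, map_one]
  rw [mul_inv, ← eq_inv_of_mul_eq_one_right h1, zpow_neg]

/-- **reduction of a point of the twist to the fixed locus** -/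
theorem fixed_point (ϖ : A) (hϖ : Irreducible ϖ) (q : ℕ) (hq : 0 < q) {κ : Type*} [Field κ]
    (ρ : A →+* κ) (hρ : ∀ a ∈ IsLocalRing.maximalIdeal A, ρ a = 0)
    {Ω : Type*} [Field Ω] [Algebra E Ω] [Algebra A Ω] [IsScalarTower A E Ω]
    (δ : Ω) (d : E) (hδ : δ ^ q = algebraMap E Ω d) (m : ℤ) (hd : OrdIs ϖ d m)
    (hm : IsCoprime (q : ℤ) m) {n : ℕ} (w : Fin n → ℕ) (x : Fin n → E) (hx : x ≠ 0)
    {J : Type*} {R : Type*} [CommRing R] (ι : R →+* A) (F : J → MvPolynomial (Fin n) R) (D : J → ℕ)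
    (hF : ∀ j, (F j).IsHomogeneous (D j))
    (h : ∀ j, MvPolynomial.eval₂ ((algebraMap A Ω).comp ι)
      (fun i => δ ^ (w i) * algebraMap E Ω (x i)) (F j) = 0) :
    ∃ z : Fin n → κ, z ≠ 0 ∧ (∀ i i', z i ≠ 0 → z i' ≠ 0 → w i ≡ w i' [MOD q]) ∧
      ∀ j, MvPolynomial.eval₂ (ρ.comp ι) z (F j) = 0 := by
  classical
  have hd0 : d ≠ 0 := by
    rintro rfl
    obtain ⟨u, hu⟩ := hd
    exact mul_ne_zero (u.isUnit.map (algebraMap A E)).ne_zero
      (zpow_ne_zero _ (uniz_ne ϖ hϖ)) hu.symm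
  have hδ0 : δ ≠ 0 := by
    rintro rfl
    rw [zero_pow hq.ne'] at hδ
    exact hd0 ((map_eq_zero_iff _ (algebraMap E Ω).injective).1 hδ.symm)
  -- the orders
  have hord : ∀ i : Fin n, ∃ o : ℤ, x i ≠ 0 → OrdIs ϖ (x i) o := by
    intro i
    by_cases hi : x i = 0
    · exact ⟨0, fun h => absurd hi h⟩
    · obtain ⟨o, ho⟩ := OrdIs.exists hϖ hi
      exact ⟨o, fun _ => ho⟩
  choose o ho using hord
  obtain ⟨i₁, hi₁⟩ : ∃ i, x i ≠ 0 := by
    by_contra hcon
    push Not at hcon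
    exact hx (funext hcon)
  set S : Finset (Fin n) := Finset.univ.filter fun i => x i ≠ 0 with hS
  obtain ⟨i₀, hi₀S, hmin⟩ := Finset.exists_min_image S (fun i => (q : ℤ) * o i + w i * m)
    ⟨i₁, by rw [hS, Finset.mem_filter]; exact ⟨Finset.mem_univ _, hi₁⟩⟩
  have hi₀ : x i₀ ≠ 0 := (Finset.mem_filter.1 hi₀S).2
  -- the quotients
  set y : Fin n → Ω := fun i => δ ^ (w i) * algebraMap E Ω (x i) with hy
  have hy₀ : y i₀ ≠ 0 := mul_ne_zero (pow_ne_zero _ hδ0)
    ((map_ne_zero_iff _ (algebraMap E Ω).injective).2 hi₀)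
  set τ : Fin n → E := fun i => (x i / x i₀) ^ q * (d ^ (w i) / d ^ (w i₀)) with hτ
  have hbτ : ∀ i, ((y i₀)⁻¹ * y i) ^ q = algebraMap E Ω (τ i) := by
    intro i
    rw [hτ]
    change _ = algebraMap E Ω ((x i / x i₀) ^ q * (d ^ (w i) / d ^ (w i₀)))
    rw [map_mul, map_pow, map_div₀, map_div₀, map_pow, map_pow, ← hδ, hy]
    change ((δ ^ (w i₀) * algebraMap E Ω (x i₀))⁻¹ * (δ ^ (w i) * algebraMap E Ω (x i))) ^ q = _
    rw [mul_inv, mul_pow, mul_pow, mul_pow, inv_pow, inv_pow, ← pow_mul, ← pow_mul, ← pow_mul,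
      ← pow_mul, mul_comm (w i₀) q, mul_comm (w i) q, div_pow]
    field_simp
  have hτord : ∀ i, x i ≠ 0 → OrdIs ϖ (τ i)
      (((q : ℤ) * o i + w i * m) - ((q : ℤ) * o i₀ + w i₀ * m)) := by
    intro i hi
    have h1 := (((ho i hi).mul hϖ (OrdIs.inv (ho i₀ hi₀))).pow hϖ q).mul hϖ
      ((hd.pow hϖ (w i)).mul hϖ (OrdIs.inv (hd.pow hϖ (w i₀))))
    have e1 : τ i = (x i * (x i₀)⁻¹) ^ q * (d ^ (w i) * (d ^ (w i₀))⁻¹) := by
      rw [hτ]
      simp only [div_eq_mul_inv]
    have e2 : ((q : ℤ) * o i + w i * m) - ((q : ℤ) * o i₀ + w i₀ * m) =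
        q * (o i + -o i₀) + (w i * m + -(w i₀ * m)) := by ring
    rw [e1, e2]
    exact h1
  -- integrality
  have hτA : ∀ i, ∃ a : A, algebraMap A E a = τ i ∧
      (¬ w i ≡ w i₀ [MOD q] → a ∈ IsLocalRing.maximalIdeal A) := by
    intro i
    by_cases hi : x i = 0
    · refine ⟨0, ?_, fun _ => zero_mem _⟩
      rw [map_zero, hτ]
      change 0 = (x i / x i₀) ^ q * (d ^ (w i) / d ^ (w i₀))
      rw [hi, zero_div, zero_pow hq.ne', zero_mul]
    · have h1 := hmin i (by rw [hS, Finset.mem_filter]; exact ⟨Finset.mem_univ _, hi⟩)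
      obtain ⟨a, ha, ha'⟩ := mem_of_ord hϖ (hτord i hi) (sub_nonneg.2 h1)
      refine ⟨a, ha, fun hw => ha' ?_⟩
      rcases h1.lt_or_eq with h2 | h2
      · exact sub_pos.2 h2
      · exfalso
        apply hw
        have h3 : (q : ℤ) ∣ ((w i : ℤ) - w i₀) * m := ⟨o i₀ - o i, by linear_combination -h2⟩
        have h4 := hm.dvd_of_dvd_mul_right h3
        exact (Nat.modEq_iff_dvd.2 (by
          have h5 := dvd_neg.2 h4
          rwa [neg_sub] at h5))
  choose a haτ hamax using hτA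
  let B := integralClosure A Ω
  have hbint : ∀ i, IsIntegral A ((y i₀)⁻¹ * y i) := by
    intro i
    apply IsIntegral.of_pow hq
    rw [hbτ, ← haτ, ← IsScalarTower.algebraMap_apply A E Ω]
    exact isIntegral_algebraMap
  let b : Fin n → B := fun i => ⟨(y i₀)⁻¹ * y i, hbint i⟩
  have hinjAB : Function.Injective (algebraMap A B) := by
    intro s t hst
    have h1 : algebraMap A Ω s = algebraMap A Ω t := congrArg (algebraMap B Ω) hst
    rw [IsScalarTower.algebraMap_apply A E Ω, IsScalarTower.algebraMap_apply A E Ω] at h1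
    exact IsFractionRing.injective A E ((algebraMap E Ω).injective h1)
  have hfaith : FaithfulSMul A B := (faithfulSMul_iff_algebraMap_injective A B).2 hinjAB
  obtain ⟨M, hM, hMA⟩ := Ideal.exists_ideal_over_maximal_of_isIntegral (S := B)
    (IsLocalRing.maximalIdeal A) (by
      rw [(RingHom.injective_iff_ker_eq_bot _).1 hinjAB]
      exact bot_le)
  have hMmem : ∀ s : A, algebraMap A B s ∈ M ↔ s ∈ IsLocalRing.maximalIdeal A := by
    intro s
    rw [← hMA]
    rfl
  -- the elements of `A`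
  have hc : ∀ i, ∃ c : A, algebraMap A B c - b i ∈ M ∧ (¬ w i ≡ w i₀ [MOD q] → c = 0) ∧
      (i = i₀ → c = 1) := by
    intro i
    by_cases hw : w i ≡ w i₀ [MOD q]
    · -- in the block
      obtain ⟨s, hs⟩ : (q : ℤ) ∣ (w i : ℤ) - w i₀ := by
        have h5 := (Nat.modEq_iff_dvd.1 hw)
        have h6 := dvd_neg.2 h5
        rwa [neg_sub] at h6
      have h1 : (y i₀)⁻¹ * y i = algebraMap E Ω (x i / x i₀ * d ^ s) := by
        rw [map_mul, map_div₀, map_zpow₀, ← hδ, ← zpow_natCast, ← zpow_mul, ← hs, zpow_sub₀ hδ0,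
          zpow_natCast, zpow_natCast, hy]
        change (δ ^ (w i₀) * algebraMap E Ω (x i₀))⁻¹ * (δ ^ (w i) * algebraMap E Ω (x i)) = _
        rw [mul_inv]
        field_simp
      have h2 : IsIntegral A (x i / x i₀ * d ^ s) := by
        have h3 := hbint i
        rw [h1] at h3
        exact (isIntegral_algebraMap_iff (algebraMap E Ω).injective).1 h3
      obtain ⟨c, hc⟩ := IsIntegrallyClosed.isIntegral_iff.1 h2
      refine ⟨c, ?_, fun h => absurd hw h, ?_⟩
      · have h4 : algebraMap A B c = b i := by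
          apply Subtype.ext
          change algebraMap A Ω c = (y i₀)⁻¹ * y i
          rw [h1, ← hc, ← IsScalarTower.algebraMap_apply A E Ω]
        rw [h4, sub_self]
        exact zero_mem _
      · intro hi
        apply IsFractionRing.injective A E
        apply (algebraMap E Ω).injective
        rw [hc, ← h1, hi, inv_mul_cancel₀ hy₀, map_one, map_one]
    · refine ⟨0, ?_, fun _ => rfl, fun hi => absurd (by rw [hi]) hw⟩
      rw [map_zero, zero_sub, neg_mem_iff]
      have h1 : b i ^ q ∈ M := by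
        have h2 : b i ^ q = algebraMap A B (a i) := by
          apply Subtype.ext
          change ((y i₀)⁻¹ * y i) ^ q = algebraMap A Ω (a i)
          rw [hbτ, ← haτ, ← IsScalarTower.algebraMap_apply A E Ω]
        rw [h2, hMmem]
        exact hamax i hw
      exact hM.isPrime.mem_of_pow_mem _ h1
  choose c hcb hc0 hc1 using hc
  refine ⟨fun i => ρ (c i), ?_, ?_, ?_⟩
  · intro h0
    have h1 := congrFun h0 i₀
    change ρ (c i₀) = 0 at h1
    rw [hc1 i₀ rfl, map_one] at h1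
    exact one_ne_zero h1
  · intro i i' hi hi'
    have h1 : ∀ i, ρ (c i) ≠ 0 → w i ≡ w i₀ [MOD q] := by
      intro i hi
      by_contra hcon
      apply hi
      rw [hc0 i hcon, map_zero]
    exact (h1 i hi).trans (h1 i' hi').symm
  · intro j
    have h1 : MvPolynomial.eval₂ ((algebraMap A B).comp ι) (fun i => algebraMap A B (c i)) (F j) -
        MvPolynomial.eval₂ ((algebraMap A B).comp ι) b (F j) ∈ M :=
      eval₂_congr_mod M (F j) _ _ _ hcb
    have h2 : MvPolynomial.eval₂ ((algebraMap A B).comp ι) b (F j) = 0 := by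
      apply Subtype.ext
      change algebraMap B Ω (MvPolynomial.eval₂ ((algebraMap A B).comp ι) b (F j)) = 0
      rw [MvPolynomial.hom_eval₂]
      have h3 := eval₂_smul (hF j) ((algebraMap A Ω).comp ι) (y i₀)⁻¹ y
      rw [h j, mul_zero] at h3
      exact h3
    rw [h2, sub_zero] at h1
    have h3 : MvPolynomial.eval₂ ((algebraMap A B).comp ι) (fun i => algebraMap A B (c i)) (F j) =
        algebraMap A B (MvPolynomial.eval₂ ι c (F j)) := by
      rw [MvPolynomial.hom_eval₂]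
    rw [h3, hMmem] at h1
    have h4 := hρ _ h1
    rw [MvPolynomial.hom_eval₂] at h4
    exact h4

end

end Pool.Agent.Q52.Tw
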