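import Pool.Agent.TH813.Rough

/-!
# Integers that no prime of a given set divides exactly once
-/

set_option autoImplicit false

namespace Pool.Agent.Q52.Tw

open Finset

/-- no prime of `V` divides `n` exactly once -/
def NoExact (V : Set ℕ) (n : ℕ) : Prop := ∀ p, p.Prime → p ∈ V → n.factorization p ≠ 1

open Classical in
/-- the weight -/
noncomputable def wt (V : Set ℕ) (n : ℕ) : ℝ := if NoExact V n then 1 else 0

variable (V : Set ℕ)

theorem wt_one : wt V 1 = 1 := by
  unfold wt
  rw [if_pos]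
  intro p _ _
  simp

theorem wt_nonneg (n : ℕ) : 0 ≤ wt V n := by
  unfold wt
  split_ifs <;> norm_num

theorem wt_le_one (n : ℕ) : wt V n ≤ 1 := by
  unfold wt
  split_ifs <;> norm_num

theorem noExact_mul {m n : ℕ} (h : m.Coprime n) :
    NoExact V (m * n) ↔ NoExact V m ∧ NoExact V n := by
  constructor
  · intro hmn
    constructor
    · intro p hp hpV h1
      refine hmn p hp hpV ?_
      rw [Nat.factorization_eq_of_coprime_left h]
      · exact h1
      · rw [List.mem_toFinset.symm]
        change p ∈ m.primeFactors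
        rw [← Nat.support_factorization, Finsupp.mem_support_iff, h1]
        norm_num
    · intro p hp hpV h1
      refine hmn p hp hpV ?_
      rw [Nat.factorization_eq_of_coprime_right h]
      · exact h1
      · rw [List.mem_toFinset.symm]
        change p ∈ n.primeFactors
        rw [← Nat.support_factorization, Finsupp.mem_support_iff, h1]
        norm_num
  · rintro ⟨h1, h2⟩ p hp hpV h3
    rw [Nat.factorization_mul_of_coprime h, Finsupp.add_apply] at h3
    by_cases hm : m.factorization p = 0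
    · rw [hm, zero_add] at h3
      exact h2 p hp hpV h3
    · have h4 := h1 p hp hpV
      omega

theorem wt_mul {m n : ℕ} (h : m.Coprime n) : wt V (m * n) = wt V m * wt V n := by
  classical
  unfold wt
  by_cases h1 : NoExact V m
  · by_cases h2 : NoExact V n
    · rw [if_pos h1, if_pos h2, if_pos ((noExact_mul V h).2 ⟨h1, h2⟩), one_mul]
    · rw [if_neg h2, if_neg (fun h3 => h2 ((noExact_mul V h).1 h3).2), mul_zero]
  · rw [if_neg h1, if_neg (fun h3 => h1 ((noExact_mul V h).1 h3).1), zero_mul]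

open Classical in
theorem wt_prime_pow {p : ℕ} (hp : p.Prime) (n : ℕ) :
    wt V (p ^ n) = if p ∈ V ∧ n = 1 then 0 else 1 := by
  unfold wt
  by_cases h : p ∈ V ∧ n = 1
  · rw [if_pos h, if_neg]
    intro h1
    apply h1 p hp h.1
    rw [hp.factorization_pow, Finsupp.single_eq_same, h.2]
  · rw [if_neg h, if_pos]
    intro q hq hqV h1
    rw [hp.factorization_pow, Finsupp.single_apply] at h1
    split_ifs at h1 with h2
    · apply h
      rw [h2]
      exact ⟨hqV, h1⟩

open Classical in
/-- the local correction -/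
noncomputable def gp (p : ℕ) : ℝ := if p ∈ V then 1 / (p : ℝ) else 0

theorem local_sum {p : ℕ} (hp : p.Prime) :
    HasSum (fun n : ℕ => wt V (p ^ n) / ((p ^ n : ℕ) : ℝ)) (1 + 1 / ((p : ℝ) - 1) - gp V p) := by
  classical
  have hp1 : (1 : ℝ) < p := by exact_mod_cast hp.one_lt
  have h1 : HasSum (fun n : ℕ => ((p : ℝ)⁻¹) ^ n) (1 - (p : ℝ)⁻¹)⁻¹ :=
    hasSum_geometric_of_lt_one (by positivity) (inv_lt_one_of_one_lt₀ hp1)
  have h2 : HasSum (fun n : ℕ => if n = 1 then -gp V p else 0) (-gp V p) :=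
    hasSum_ite_eq 1 _
  have h3 : (1 - (p : ℝ)⁻¹)⁻¹ = 1 + 1 / ((p : ℝ) - 1) := by
    have : (p : ℝ) - 1 ≠ 0 := by linarith
    field_simp
    ring
  rw [h3] at h1
  have h4 := h1.add h2
  rw [← sub_eq_add_neg] at h4
  refine h4.congr_fun ?_
  intro n
  rw [wt_prime_pow V hp]
  by_cases hn : n = 1
  · subst hn
    by_cases hV : p ∈ V
    · simp [gp, hV]
    · simp [gp, hV]
  · simp [hn]

theorem gp_nonneg (p : ℕ) : 0 ≤ gp V p := by
  unfold gp
  split_ifs
  · positivity
  · exact le_rfl

theorem euler_le (x : ℕ) :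
    ∑ m ∈ Icc 1 x, wt V m / (m : ℝ) ≤
      ∏ p ∈ (x + 1).primesBelow, (1 + 1 / ((p : ℝ) - 1) - gp V p) := by
  have key := EulerProduct.summable_and_hasSum_smoothNumbers_prod_primesBelow_tsum
    (f := fun m : ℕ => wt V m / (m : ℝ)) (by simp [wt_one]) (by
      intro m n hmn
      simp only [wt_mul V hmn, Nat.cast_mul]
      rw [mul_div_mul_comm]) (by
      intro p hp
      have := (local_sum V hp).summable
      refine this.congr (fun n => ?_)
      rw [Real.norm_of_nonneg]
      exact div_nonneg (wt_nonneg V _) (Nat.cast_nonneg _)) (x + 1)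
  have h2 := key.2
  have h3 : ∏ p ∈ (x + 1).primesBelow, ∑' n : ℕ, (wt V (p ^ n) / ((p ^ n : ℕ) : ℝ)) =
      ∏ p ∈ (x + 1).primesBelow, (1 + 1 / ((p : ℝ) - 1) - gp V p) := by
    refine prod_congr rfl (fun p hp => ?_)
    exact (local_sum V (Nat.prime_of_mem_primesBelow hp)).tsum_eq
  rw [h3] at h2
  have hmem : ∀ m ∈ Icc 1 x, m ∈ (x + 1).smoothNumbers := by
    intro m hm
    rw [mem_Icc] at hm
    rw [Nat.mem_smoothNumbers']
    intro p _ hpm
    exact Nat.lt_succ_of_le ((Nat.le_of_dvd (by omega) hpm).trans hm.2)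
  let e : (Icc 1 x : Finset ℕ) ↪ (x + 1).smoothNumbers :=
    ⟨fun m => ⟨m.1, hmem m.1 m.2⟩, fun a b hab => by
      apply Subtype.ext
      exact congrArg (fun t : (x + 1).smoothNumbers => (t : ℕ)) hab⟩
  have h4 := sum_le_hasSum ((Icc 1 x).attach.map e) (fun m _ =>
    div_nonneg (wt_nonneg V (m : ℕ)) (Nat.cast_nonneg (m : ℕ))) h2
  rw [sum_map] at h4
  calc ∑ m ∈ Icc 1 x, wt V m / (m : ℝ)
      = ∑ m ∈ (Icc 1 x).attach, wt V (m : ℕ) / ((m : ℕ) : ℝ) :=
        (sum_attach _ (fun m : ℕ => wt V m / (m : ℝ))).symm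
    _ ≤ _ := h4

open Classical in
/-- `∑ 1/p` over the primes `p ≤ x` of `V` -/
noncomputable def recSum (V : Set ℕ) (x : ℕ) : ℝ :=
  ∑ p ∈ (Icc 1 x).filter (fun p => p.Prime ∧ p ∈ V), 1 / (p : ℝ)

theorem recSum_eq (x : ℕ) : ∑ p ∈ (Icc 1 x).filter Nat.Prime, gp V p = recSum V x := by
  classical
  unfold gp recSum
  rw [← sum_filter, filter_filter]

/-- `∑ 1/(p-1)` -/
theorem wt_sum : ∃ C : ℝ, 0 ≤ C ∧ ∀ (V : Set ℕ) (x : ℕ), 2 ≤ x →
    ∑ m ∈ Icc 1 x, wt V m / (m : ℝ) ≤
      Real.exp (Real.log (Real.log x) + C - recSum V x) ∧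
      recSum V x ≤ Real.log (Real.log x) + C := by
  classical
  obtain ⟨C, hC0, hC⟩ := Pool.Agent.TH813.Rough.sum_inv'
  refine ⟨C, hC0, fun V x hx => ⟨(euler_le V x).trans ?_, ?_⟩⟩
  · rw [Pool.Agent.TH813.Rough.primesBelow_eq]
    calc ∏ p ∈ (Icc 1 x).filter Nat.Prime, (1 + 1 / ((p : ℝ) - 1) - gp V p)
        ≤ ∏ p ∈ (Icc 1 x).filter Nat.Prime, Real.exp (1 / ((p : ℝ) - 1) - gp V p) := by
          refine prod_le_prod (fun p hp => ?_) (fun p hp => ?_)
          · rw [mem_filter] at hp
            have h1 : (1 : ℝ) < p := by exact_mod_cast hp.2.one_lt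
            have h2 : gp V p ≤ 1 := by
              unfold gp
              split_ifs
              · rw [div_le_one (by linarith)]
                exact h1.le
              · norm_num
            have h3 : 0 ≤ 1 / ((p : ℝ) - 1) := one_div_nonneg.2 (by linarith)
            linarith
          · have := Real.add_one_le_exp (1 / ((p : ℝ) - 1) - gp V p)
            linarith
      _ = Real.exp (∑ p ∈ (Icc 1 x).filter Nat.Prime, (1 / ((p : ℝ) - 1) - gp V p)) :=
          (Real.exp_sum _ _).symm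
      _ ≤ _ := by
          apply Real.exp_le_exp.2
          rw [sum_sub_distrib, recSum_eq]
          have := hC x hx
          linarith
  · refine le_trans ?_ (hC x hx)
    rw [← recSum_eq]
    refine sum_le_sum fun p hp => ?_
    rw [mem_filter] at hp
    have h1 : (1 : ℝ) < p := by exact_mod_cast hp.2.one_lt
    unfold gp
    split_ifs
    · exact one_div_le_one_div_of_le (by linarith) (by linarith)
    · exact one_div_nonneg.2 (by linarith)

end Pool.Agent.Q52.Tw
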